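import Mathlib

/-!
Project ESF (helper161), part 2, job KCD: permutations of three points.
-/

set_option autoImplicit false

namespace Pool.Agent.Q123.ESF

open Finset

section perm

variable {G X : Type} [Group G] [MulAction G X] [DecidableEq X]

theorem third {S : Finset X} (hS : S.card = 3) {p q : X} (hp : p ∈ S) (hq : q ∈ S) (hpq : q ≠ p) :
    ∃ r ∈ S, r ≠ p ∧ r ≠ q ∧ ∀ x ∈ S, x = p ∨ x = q ∨ x = r := by
  have h1 : ((S.erase p).erase q).card = 1 := by
    rw [card_erase_of_mem (mem_erase.2 ⟨hpq, hq⟩), card_erase_of_mem hp, hS]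
  obtain ⟨r, hr⟩ := card_eq_one.1 h1
  have h2 : r ∈ (S.erase p).erase q := by rw [hr]; exact mem_singleton_self r
  rw [mem_erase, mem_erase] at h2
  refine ⟨r, h2.2.2, h2.2.1, h2.1, fun x hx => ?_⟩
  by_cases h3 : x = p
  · exact Or.inl h3
  by_cases h4 : x = q
  · exact Or.inr (Or.inl h4)
  have h5 : x ∈ (S.erase p).erase q := mem_erase.2 ⟨h4, mem_erase.2 ⟨h3, hx⟩⟩
  rw [hr, mem_singleton] at h5
  exact Or.inr (Or.inr h5)

/-- an element which fixes a point of a stable set of three points has a trivial square on it -/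
theorem sq_of_fix {S : Finset X} (hS : S.card = 3) (h : G) (hst : ∀ x ∈ S, h • x ∈ S) {p : X}
    (hp : p ∈ S) (hfix : h • p = p) : ∀ x ∈ S, h • h • x = x := by
  intro x hx
  by_cases hxp : x = p
  · rw [hxp, hfix, hfix]
  by_cases hxx : h • x = x
  · rw [hxx, hxx]
  obtain ⟨r, hr, hrp, hrx, hall⟩ := third hS hp hx hxp
  have inj : ∀ a b : X, h • a = h • b → a = b := fun a b hab => smul_left_cancel h hab
  have h1 : h • x = r := by
    rcases hall _ (hst x hx) with h2 | h2 | h2
    · exact absurd (inj x p (h2.trans hfix.symm)) hxp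
    · exact absurd h2 hxx
    · exact h2
  rw [h1]
  rcases hall _ (hst r hr) with h2 | h2 | h2
  · exact absurd (inj r p (h2.trans hfix.symm)) hrp
  · exact h2
  · exact absurd (inj r x (h2.trans h1.symm)) hrx

/-- a group of involutions on three points has a fixed point -/
theorem fixed_point {S : Finset X} (hS : S.card = 3) (H : Subgroup G)
    (hst : ∀ h ∈ H, ∀ x ∈ S, h • x ∈ S) (hsq : ∀ h ∈ H, ∀ x ∈ S, h • h • x = x) :
    ∃ x ∈ S, ∀ h ∈ H, h • x = x := by
  by_contra hcon
  push Not at hcon
  have hne : S.Nonempty := by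
    rw [← card_pos, hS]
    norm_num
  obtain ⟨p, hp⟩ := hne
  obtain ⟨h, hh, hhp⟩ := hcon p hp
  obtain ⟨r, hr, hrp, hrq, hall⟩ := third hS hp (hst h hh p hp) hhp
  have inj : ∀ (g : G) (a b : X), g • a = g • b → a = b := fun g a b hab => smul_left_cancel g hab
  have h1 : h • h • p = p := hsq h hh p hp
  have h2 : h • r = r := by
    rcases hall _ (hst h hh r hr) with h3 | h3 | h3
    · exact absurd (inj h _ _ (h3.trans h1.symm)) hrq
    · exact absurd (inj h _ _ h3) hrp
    · exact h3
  obtain ⟨k, hk, hkr⟩ := hcon r hr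
  have h3 := hsq (h * k) (H.mul_mem hh hk) r hr
  have h4 : k • k • r = r := hsq k hk r hr
  rw [mul_smul, mul_smul] at h3
  rcases hall _ (hst k hk r hr) with h5 | h5 | h5
  · -- `k r = p`, `k (h p) = h p`
    have h6 : k • h • p = h • p := by
      rcases hall _ (hst k hk _ (hst h hh p hp)) with h7 | h7 | h7
      · exact absurd (inj k _ _ (h7.trans h5.symm)) hrq.symm
      · exact h7
      · rw [h5] at h4
        exact absurd (inj k _ _ (h7.trans h4.symm)) hhp
    rw [h5, h6, h1] at h3
    exact hrp h3.symm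
  · -- `k r = h p`, `k p = p`
    have h6 : k • p = p := by
      rcases hall _ (hst k hk _ hp) with h7 | h7 | h7
      · exact h7
      · exact absurd (inj k _ _ (h7.trans h5.symm)) hrp.symm
      · rw [h5] at h4
        exact absurd (inj k _ _ (h7.trans h4.symm)) hhp.symm
    rw [h5, h1, h6] at h3
    exact hrq h3.symm
  · exact hkr h5

end perm

end Pool.Agent.Q123.ESF
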