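import Pool.Agent.Q161.ESF.Stm8
import Pool.Agent.Q121.ESG.SEMF
import Pool.Agent.Q166.ESG.DAT
import Pool.Agent.Q123.ESF.KCDa

/-!
Project ESF (helper161), part 2, job KCD.
-/

set_option autoImplicit false

namespace Pool.Agent.Q123.ESF

open Pool.Agent.Q161.ESM Pool.Agent.Q161.ESG Pool.Agent.Q161.ESF Pool.Agent.Q121.ESG Finset NumberField
  Polynomial IntermediateField

/-- the action of the Galois group on the embeddings -/
abbrev cpAct' (K L : Type) [Field K] [NumberField K] [Field L] [NumberField L] :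
    MulAction (K ≃ₐ[ℚ] K) (L →+* K) where
  smul g ι := cp g ι
  one_smul _ := rfl
  mul_smul _ _ _ := rfl

section cj

variable {F M : Type} [Field F] [NumberField F] [Field M] (a b : 𝓞 F) (τ : F →+* M)

theorem cj_deg : (cj a b τ).natDegree = 3 := by
  unfold cj
  compute_degree!

theorem cj_monic : (cj a b τ).Monic := by
  unfold cj
  monicity!

theorem cj_irr (h : ∀ x : M, x ^ 3 + τ (a : F) * x + τ (b : F) ≠ 0) : Irreducible (cj a b τ) := by
  refine irreducible_of_degree_le_three_of_not_isRoot ?_ ?_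
  · rw [cj_deg]
    simp
  · intro x hx
    apply h x
    have h1 : (cj a b τ).eval x = 0 := hx
    unfold cj at h1
    simpa using h1

end cj

section fields

variable {F M L K : Type} [Field F] [NumberField F] [Field M] [NumberField M] [Field L]
  [NumberField L] [Algebra F L] [Field K] [NumberField K] [IsGalois ℚ K]

theorem root_of {a b : 𝓞 F} {th : 𝓞 L} (hc : CubF (a : F) (b : F) L (th : L)) {φ : M →+* K}
    {τ' : F →+* M} {ι : L →+* K} (h : ι.comp (algebraMap F L) = φ.comp τ') :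
    (ι (th : L)) ^ 3 + φ (τ' (a : F)) * ι (th : L) + φ (τ' (b : F)) = 0 := by
  have h1 := congrArg ι hc.root
  rw [map_add, map_add, map_mul, map_pow, map_zero] at h1
  have h2 : ∀ x : F, ι (algebraMap F L x) = φ (τ' x) := fun x => congrArg (fun f : F →+* K => f x) h
  rwa [h2, h2] at h1

theorem hom_ext {a b : 𝓞 F} {th : 𝓞 L} (hc : CubF (a : F) (b : F) L (th : L)) {ι ι' : L →+* K}
    (h : ι.comp (algebraMap F L) = ι'.comp (algebraMap F L)) (ht : ι (th : L) = ι' (th : L)) :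
    ι = ι' := by
  have hdeg : (X ^ 3 + C (a : F) * X + C (b : F) : F[X]).natDegree = 3 := by compute_degree!
  have hd := Pool.Agent.Q166.ESG.dat F L (X ^ 3 + C (a : F) * X + C (b : F)) th hc.irr (by
    have := hc.root
    simpa using this) (by rw [hdeg]; exact hc.deg) (by rw [hdeg]; decide) K ⟨ι⟩
  exact hd.sep ι ι' h ht

/-- the fixing subgroup of `φ(M)` -/
def Nf (φ : M →+* K) : Subgroup (K ≃ₐ[ℚ] K) where
  carrier := {g | ∀ m, g (φ m) = φ m}
  one_mem' _ := rfl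
  mul_mem' := by
    intro g h hg hh m
    show g (h (φ m)) = φ m
    rw [hh m, hg m]
  inv_mem' := by
    intro g hg m
    show g.symm (φ m) = φ m
    rw [AlgEquiv.symm_apply_eq, hg m]

theorem res (hM : IsGalois ℚ M) (φ : M →+* K) (h : K ≃ₐ[ℚ] K) :
    ∃ h' : M ≃+* M, ∀ m, φ (h' m) = h (φ m) := by
  let _ : Algebra M K := φ.toAlgebra
  refine ⟨(h.restrictNormal M).toRingEquiv, fun m => ?_⟩
  exact AlgEquiv.restrictNormal_commutes h M m

theorem min_of {a b : 𝓞 F} (φ : M →+* K) (τ' : F →+* M)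
    (hirr : ∀ x : M, x ^ 3 + τ' (a : F) * x + τ' (b : F) ≠ 0) (y : K)
    (hy : y ^ 3 + φ (τ' (a : F)) * y + φ (τ' (b : F)) = 0) :
    letI : Algebra M K := φ.toAlgebra
    minpoly M y = cj a b τ' := by
  let _ : Algebra M K := φ.toAlgebra
  symm
  refine minpoly.eq_of_irreducible_of_monic (cj_irr a b τ' hirr) ?_ (cj_monic a b τ')
  unfold cj
  have h1 : aeval y (X ^ 3 + C (τ' (a : F)) * X + C (τ' (b : F)) : M[X]) =
      y ^ 3 + φ (τ' (a : F)) * y + φ (τ' (b : F)) := by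
    simp only [map_add, map_mul, map_pow, aeval_X, aeval_C]
    rfl
  rw [h1, hy]

theorem key_trans {a b : 𝓞 F} {th : 𝓞 L} (hc : CubF (a : F) (b : F) L (th : L)) (φ : M →+* K)
    (τ' : F →+* M) (hirr : ∀ x : M, x ^ 3 + τ' (a : F) * x + τ' (b : F) ≠ 0) (ι ι' : L →+* K)
    (h : ι.comp (algebraMap F L) = φ.comp τ') (h' : ι'.comp (algebraMap F L) = φ.comp τ') :
    ∃ g ∈ Nf φ, cp g ι = ι' := by
  let _ : Algebra M K := φ.toAlgebra
  have m1 := min_of φ τ' hirr _ (root_of hc h)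
  have m2 := min_of φ τ' hirr _ (root_of hc h')
  have hn : Normal M K := Normal.tower_top_of_normal ℚ M K
  obtain ⟨g, hg⟩ := minpoly.exists_algEquiv_of_root' (K := M) (L := K) (x := ι' (th : L))
    (y := ι (th : L)) (Algebra.IsAlgebraic.isAlgebraic _) (by rw [m1, ← m2]; exact minpoly.aeval _ _)
  have hgm : ∀ m, g (φ m) = φ m := fun m => g.commutes m
  refine ⟨g.restrictScalars ℚ, hgm, ?_⟩
  refine hom_ext hc ?_ hg
  rw [h']
  ext x
  show g (ι (algebraMap F L x)) = φ (τ' x)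
  have h2 : ι (algebraMap F L x) = φ (τ' x) := congrArg (fun f : F →+* K => f x) h
  rw [h2, hgm]

/-- no common fixed point -/
theorem no_fix {a b : 𝓞 F} {th : 𝓞 L} (hc : CubF (a : F) (b : F) L (th : L)) (φ : M →+* K)
    (τ' τ'' : F →+* M) (hirr : ∀ x : M, x ^ 3 + τ'' (a : F) * x + τ'' (b : F) ≠ 0)
    (hdist : ∀ x : AdjoinRoot (cj a b τ''), x ^ 3 + AdjoinRoot.of _ (τ' (a : F)) * x +
      AdjoinRoot.of _ (τ' (b : F)) ≠ 0) (ι ι0 : L →+* K)
    (h : ι.comp (algebraMap F L) = φ.comp τ') (h0 : ι0.comp (algebraMap F L) = φ.comp τ'')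
    (hfix : ∀ g ∈ Nf φ, cp g ι0 = ι0 → cp g ι = ι) : False := by
  let _ : Algebra M K := φ.toAlgebra
  have m0 := min_of φ τ'' hirr _ (root_of hc h0)
  have hg : IsGalois M K := IsGalois.tower_top_of_isGalois ℚ M K
  have hfd : FiniteDimensional M K := FiniteDimensional.right ℚ M K
  have hx : ι (th : L) ∈ M⟮ι0 (th : L)⟯ := by
    rw [← IsGalois.fixedField_fixingSubgroup M⟮ι0 (th : L)⟯]
    intro g
    have hgm : ∀ m, g.1 (φ m) = φ m := fun m => g.1.commutes m
    have h1 : g.1.restrictScalars ℚ ∈ Nf φ := hgm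
    have h2 : g.1 (ι0 (th : L)) = ι0 (th : L) :=
      g.2 ⟨ι0 (th : L), mem_adjoin_simple_self M _⟩
    have h3 : cp (g.1.restrictScalars ℚ) ι0 = ι0 := by
      refine hom_ext hc ?_ h2
      ext x
      show g.1 (ι0 (algebraMap F L x)) = ι0 (algebraMap F L x)
      have h4 : ι0 (algebraMap F L x) = φ (τ'' x) := congrArg (fun f : F →+* K => f x) h0
      rw [h4, hgm]
    have h5 := hfix _ h1 h3
    exact congrArg (fun f : L →+* K => f (th : L)) h5
  have hi : IsIntegral M (ι0 (th : L)) := Algebra.IsIntegral.isIntegral _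
  have hd : ∀ x : AdjoinRoot (minpoly M (ι0 (th : L))), x ^ 3 + AdjoinRoot.of _ (τ' (a : F)) * x +
      AdjoinRoot.of _ (τ' (b : F)) ≠ 0 := by
    rw [m0]
    exact hdist
  let e := IntermediateField.adjoinRootEquivAdjoin M hi
  apply hd (e.symm ⟨ι (th : L), hx⟩)
  apply e.injective
  rw [map_add, map_add, map_mul, map_pow, map_zero, AlgEquiv.apply_symm_apply]
  have h6 : ∀ m : M, e (AdjoinRoot.of _ m) = algebraMap M _ m := fun m => e.commutes m
  rw [h6, h6]
  apply Subtype.ext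
  exact root_of hc h

end fields

/-- **KCD** -/
theorem kcd : S_KCD := by
  intro F _ _ a b M _ _ hadm L _ _ _ th hc K _ _ _ hLK hMK
  classical
  obtain ⟨φ⟩ := hMK
  obtain ⟨e0⟩ := hadm.emb
  have hfac : ∀ τ : F →+* K, ∃ τ' : F →+* M, τ = φ.comp τ' := by
    intro τ
    obtain ⟨h, hh⟩ := exists_aut (φ.comp e0) τ
    obtain ⟨h', hh'⟩ := res hadm.gal φ h
    refine ⟨(h' : M →+* M).comp e0, ?_⟩
    ext x
    rw [← hh x]
    exact (hh' (e0 x)).symm
  have hNcomp : ∀ g ∈ Nf φ, ∀ τ : F →+* K, cp g τ = τ := by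
    intro g hg τ
    obtain ⟨τ', rfl⟩ := hfac τ
    ext x
    exact hg (τ' x)
  refine ⟨Nf φ, ⟨fun g hg σ m => ?_⟩, hNcomp, ?_, ?_⟩
  · show σ (g (σ.symm (φ m))) = φ m
    obtain ⟨h', hh'⟩ := res hadm.gal φ σ.symm
    rw [← hh' m, hg, hh' m, AlgEquiv.apply_symm_apply]
  · intro ι ι' hιι
    obtain ⟨τ', hτ'⟩ := hfac (ι'.comp (algebraMap F L))
    exact key_trans hc φ τ' (hadm.irr τ') ι ι' (hιι.trans hτ') hτ'
  · intro σ τ hne hsq
    obtain ⟨τ', hτ'⟩ := hfac τ
    obtain ⟨σ', hσ'⟩ := res hadm.gal φ σ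
    have hc1 : cp σ τ = φ.comp ((σ' : M →+* M).comp τ') := by
      rw [hτ']
      ext x
      exact (hσ' (τ' x)).symm
    have hc2 : cp σ (cp σ τ) = φ.comp ((σ' : M →+* M).comp ((σ' : M →+* M).comp τ')) := by
      rw [hc1]
      ext x
      exact (hσ' (σ' (τ' x))).symm
    have hne' : (σ' : M →+* M).comp τ' ≠ τ' := by
      intro h
      apply hne
      rw [hc1, h, hτ']
    have hsq' : (σ' : M →+* M).comp ((σ' : M →+* M).comp τ') = τ' := by
      ext x
      apply φ.injective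
      have h1 : φ.comp ((σ' : M →+* M).comp ((σ' : M →+* M).comp τ')) = φ.comp τ' := by
        rw [← hc2, hsq, hτ']
      exact congrArg (fun f : F →+* K => f x) h1
    let _ := cpAct' K L
    have hcp : ∀ (g : K ≃ₐ[ℚ] K) (ι : L →+* K), g • ι = cp g ι := fun _ _ => rfl
    let S : (F →+* K) → Finset (L →+* K) := fun ρ =>
      univ.filter (fun ι : L →+* K => ι.comp (algebraMap F L) = ρ)
    have hS : ∀ ρ, (S ρ).card = 3 := by
      intro ρ
      rw [← hc.deg, ← card_block hLK ρ, Nat.card_eq_fintype_card, Fintype.card_subtype]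
    have hmem : ∀ ρ ι, ι ∈ S ρ ↔ ι.comp (algebraMap F L) = ρ := by
      intro ρ ι
      simp [S]
    have hst : ∀ ρ, ∀ g ∈ Nf φ, ∀ ι ∈ S ρ, g • ι ∈ S ρ := by
      intro ρ g hg ι hι
      rw [hmem] at hι ⊢
      have h1 := hNcomp g hg ρ
      rw [← hι] at h1 ⊢
      exact h1
    obtain ⟨ι0, hι0⟩ : (S (cp σ τ)).Nonempty := by
      rw [← card_pos, hS]
      norm_num
    let H : Subgroup (K ≃ₐ[ℚ] K) := Nf φ ⊓ MulAction.stabilizer (K ≃ₐ[ℚ] K) ι0
    have key : ∃ h ∈ H, ∃ ι ∈ S τ, h • h • ι ≠ ι := by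
      by_contra hcon
      push Not at hcon
      obtain ⟨ι, hι, hfix⟩ := fixed_point (hS τ) H (fun h hh ι hι => hst τ h hh.1 ι hι) hcon
      refine no_fix hc φ τ' _ (hadm.irr _) (hadm.dist σ' τ' hne' hsq') ι ι0 ?_ ?_ ?_
      · rw [← hτ']
        exact (hmem _ _).1 hι
      · rw [← hc1]
        exact (hmem _ _).1 hι0
      · intro g hg h0
        exact hfix g ⟨hg, h0⟩
    obtain ⟨h, hh, ι, hι, hne2⟩ := key
    refine ⟨h * h, (Nf φ).mul_mem hh.1 hh.1, fun ι' hι' => ?_, ι, (hmem _ _).1 hι, ?_⟩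
    · have h1 := sq_of_fix (hS (cp σ τ)) h (hst _ h hh.1) hι0 hh.2 ι' ((hmem _ _).2 hι')
      rw [← hcp, mul_smul]
      exact h1
    · rw [← hcp, mul_smul]
      exact hne2

end Pool.Agent.Q123.ESF
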