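import Mathlib

/-!
Project ESF (helper161), part 2, job SEMA: the action on the blocks.
-/

set_option autoImplicit false

namespace Pool.Agent.Q123.ESF

open Finset

theorem cyc_ex : ∀ x y : Equiv.Perm (Fin 3), x 0 = 1 → y 0 = 2 →
    (∀ j, x j ≠ j) ∨ (∀ j, y j ≠ j) ∨ ∀ j, (x * y) j ≠ j := by decide

theorem cyc_comm : ∀ x y : Equiv.Perm (Fin 3), x ≠ 1 → (∀ j, y j ≠ j) →
    (∀ j, x j ≠ j) ∨ ∀ j, (x * y * x⁻¹ * y⁻¹) j ≠ j := by decide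

theorem cyc_mul : ∀ x y : Equiv.Perm (Fin 3), (∀ j, y j ≠ j) →
    x = 1 ∨ x * y = 1 ∨ x * y * y = 1 ∨ x * x = 1 := by decide

theorem cyc_sq : ∀ x : Equiv.Perm (Fin 3), (∀ j, x j ≠ j) → ∀ j, (x * x) j ≠ j := by decide

section blocks

variable {G I T : Type} [Group G] [Fintype I] [MulAction G I] [MulAction G T]

theorem exists_rho (p : I → T) (N : Subgroup G) (hp : ∀ (g : G) (i : I), p (g • i) = g • p i)
    (hN : ∀ g ∈ N, ∀ t : T, g • t = t) (htr : ∀ i j : I, p i = p j → ∃ g ∈ N, g • i = j) (t : T)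
    (h3 : Nat.card {i // p i = t} = 3) :
    ∃ ρ : N →* Equiv.Perm (Fin 3), (∀ n, ρ n = 1 ↔ ∀ i, p i = t → n.1 • i = i) ∧
      (∀ n, (∀ j, ρ n j ≠ j) ↔ ∀ i, p i = t → n.1 • i ≠ i) ∧ ∀ a b, ∃ n, ρ n a = b := by
  let _ : MulAction N {i // p i = t} :=
    { smul := fun n i => ⟨n.1 • i.1, by rw [hp, i.2, hN _ n.2]⟩
      one_smul := fun i => Subtype.ext (one_smul G i.1)
      mul_smul := fun n m i => Subtype.ext (mul_smul n.1 m.1 i.1) }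
  have hsm : ∀ (n : N) (i : {i // p i = t}), (n • i).1 = n.1 • i.1 := fun _ _ => rfl
  let e : {i // p i = t} ≃ Fin 3 := Finite.equivFinOfCardEq h3
  let ρ : N →* Equiv.Perm (Fin 3) :=
    (e.permCongrHom.toMonoidHom).comp (MulAction.toPermHom N {i // p i = t})
  have hρ : ∀ n j, ρ n j = e (n • e.symm j) := fun n j => rfl
  refine ⟨ρ, fun n => ?_, fun n => ?_, fun a b => ?_⟩
  · constructor
    · intro h i hi
      have h1 : ρ n (e ⟨i, hi⟩) = e ⟨i, hi⟩ := by rw [h]; rfl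
      rw [hρ, e.symm_apply_apply] at h1
      exact congrArg Subtype.val (e.injective h1)
    · intro h
      ext1 j
      rw [hρ]
      have h1 : n • e.symm j = e.symm j := Subtype.ext (h _ (e.symm j).2)
      rw [h1, e.apply_symm_apply]
      rfl
  · constructor
    · intro h i hi h1
      apply h (e ⟨i, hi⟩)
      rw [hρ, e.symm_apply_apply]
      congr 1
      exact Subtype.ext h1
    · intro h j h1
      rw [hρ] at h1
      apply h (e.symm j).1 (e.symm j).2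
      have h2 : n • e.symm j = e.symm j := by
        apply e.injective
        rw [h1, e.apply_symm_apply]
      exact congrArg Subtype.val h2
  · obtain ⟨g, hg, hgi⟩ := htr (e.symm a).1 (e.symm b).1 (by rw [(e.symm a).2, (e.symm b).2])
    refine ⟨⟨g, hg⟩, ?_⟩
    rw [hρ]
    have h1 : (⟨g, hg⟩ : N) • e.symm a = e.symm b := Subtype.ext hgi
    rw [h1, e.apply_symm_apply]

/-- `g` is trivial on the block of `t` -/
def Tr (p : I → T) (g : G) (t : T) : Prop := ∀ i, p i = t → g • i = i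

/-- `g` has no fixed point on the block of `t` -/
def Cy (p : I → T) (g : G) (t : T) : Prop := ∀ i, p i = t → g • i ≠ i

theorem ex_cy (p : I → T) (N : Subgroup G) (hp : ∀ (g : G) (i : I), p (g • i) = g • p i)
    (hN : ∀ g ∈ N, ∀ t : T, g • t = t) (htr : ∀ i j : I, p i = p j → ∃ g ∈ N, g • i = j) (t : T)
    (h3 : Nat.card {i // p i = t} = 3) : ∃ g ∈ N, Cy p g t := by
  obtain ⟨ρ, h1, h2, h4⟩ := exists_rho p N hp hN htr t h3
  obtain ⟨x, hx⟩ := h4 0 1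
  obtain ⟨y, hy⟩ := h4 0 2
  rcases cyc_ex _ _ hx hy with h | h | h
  · exact ⟨x.1, x.2, (h2 x).1 h⟩
  · exact ⟨y.1, y.2, (h2 y).1 h⟩
  · exact ⟨(x * y).1, (x * y).2, (h2 (x * y)).1 (by rw [map_mul]; exact h)⟩

/-- if `b ∈ N` is trivial on `t'` and not on `t`, some element is trivial on `t'` and without fixed points on `t` -/
theorem ex_cy_tr (p : I → T) (N : Subgroup G) (hp : ∀ (g : G) (i : I), p (g • i) = g • p i)
    (hN : ∀ g ∈ N, ∀ t : T, g • t = t) (htr : ∀ i j : I, p i = p j → ∃ g ∈ N, g • i = j)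
    (h3 : ∀ t, Nat.card {i // p i = t} = 3) (t t' : T) (b : G) (hb : b ∈ N) (hb' : Tr p b t')
    (hbt : ¬ Tr p b t) : ∃ g ∈ N, Tr p g t' ∧ Cy p g t := by
  obtain ⟨h, hh, hc⟩ := ex_cy p N hp hN htr t (h3 t)
  obtain ⟨ρ, r1, r2, -⟩ := exists_rho p N hp hN htr t (h3 t)
  obtain ⟨ρ', r1', r2', -⟩ := exists_rho p N hp hN htr t' (h3 t')
  have e1 : ρ ⟨b, hb⟩ ≠ 1 := fun h0 => hbt ((r1 ⟨b, hb⟩).1 h0)
  have e2 : ρ' ⟨b, hb⟩ = 1 := (r1' ⟨b, hb⟩).2 hb'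
  have e3 : ∀ j, ρ ⟨h, hh⟩ j ≠ j := (r2 ⟨h, hh⟩).2 hc
  rcases cyc_comm _ _ e1 e3 with h4 | h4
  · exact ⟨b, hb, hb', (r2 ⟨b, hb⟩).1 h4⟩
  · refine ⟨(⟨b, hb⟩ * ⟨h, hh⟩ * ⟨b, hb⟩⁻¹ * ⟨h, hh⟩⁻¹ : N).1, Subtype.property _, ?_, ?_⟩
    · refine (r1' _).1 ?_
      rw [map_mul, map_mul, map_mul, map_inv, map_inv, e2, one_mul, inv_one, mul_one, mul_inv_cancel]
    · refine (r2 _).1 ?_
      rw [map_mul, map_mul, map_mul, map_inv, map_inv]
      exact h4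

/-- the blocks of `t` and `t'` have the same kernels -/
def Eqv' (p : I → T) (N : Subgroup G) (t t' : T) : Prop := ∀ g ∈ N, Tr p g t ↔ Tr p g t'

theorem separate (p : I → T) (N : Subgroup G) (hp : ∀ (g : G) (i : I), p (g • i) = g • p i)
    (hN : ∀ g ∈ N, ∀ t : T, g • t = t) (htr : ∀ i j : I, p i = p j → ∃ g ∈ N, g • i = j)
    (h3 : ∀ t, Nat.card {i // p i = t} = 3) (t t' : T) (hne : ¬ Eqv' p N t t') :
    ∃ g ∈ N, Tr p g t' ∧ Cy p g t := by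
  unfold Eqv' at hne
  push Not at hne
  obtain ⟨b, hb, h1 | h1⟩ := hne
  · -- trivial on `t`, not on `t'`
    obtain ⟨g, hg, hgt, hgc⟩ := ex_cy_tr p N hp hN htr h3 t' t b hb h1.1 h1.2
    obtain ⟨h, hh, hc⟩ := ex_cy p N hp hN htr t (h3 t)
    obtain ⟨ρ, r1, r2, -⟩ := exists_rho p N hp hN htr t (h3 t)
    obtain ⟨ρ', r1', r2', -⟩ := exists_rho p N hp hN htr t' (h3 t')
    have e1 : ρ ⟨g, hg⟩ = 1 := (r1 ⟨g, hg⟩).2 hgt
    have e2 : ∀ j, ρ' ⟨g, hg⟩ j ≠ j := (r2' ⟨g, hg⟩).2 hgc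
    have e3 : ∀ j, ρ ⟨h, hh⟩ j ≠ j := (r2 ⟨h, hh⟩).2 hc
    rcases cyc_mul (ρ' ⟨h, hh⟩) _ e2 with h4 | h4 | h4 | h4
    · exact ⟨h, hh, (r1' ⟨h, hh⟩).1 h4, hc⟩
    · refine ⟨(⟨h, hh⟩ * ⟨g, hg⟩ : N).1, Subtype.property _, (r1' _).1 ?_, (r2 _).1 ?_⟩
      · rw [map_mul]; exact h4
      · rw [map_mul, e1, mul_one]; exact e3
    · refine ⟨(⟨h, hh⟩ * ⟨g, hg⟩ * ⟨g, hg⟩ : N).1, Subtype.property _, (r1' _).1 ?_, (r2 _).1 ?_⟩
      · rw [map_mul, map_mul]; exact h4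
      · rw [map_mul, map_mul, e1, mul_one, mul_one]; exact e3
    · refine ⟨(⟨h, hh⟩ * ⟨h, hh⟩ : N).1, Subtype.property _, (r1' _).1 ?_, (r2 _).1 ?_⟩
      · rw [map_mul]; exact h4
      · rw [map_mul]; exact cyc_sq _ e3
  · exact ex_cy_tr p N hp hN htr h3 t t' b hb h1.2 h1.1

end blocks

end Pool.Agent.Q123.ESF
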