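import Pool.Agent.Q161.ESF.Stm8
import Pool.Agent.Q121.ESG.MSK
import Pool.Agent.Q166.ESG.SUMG
import Pool.Agent.Q123.ESF.SEMAa

/-!
Project ESF (helper161), part 2, job SEMA.
-/

set_option autoImplicit false

namespace Pool.Agent.Q123.ESF

open Pool.Agent.Q161.ESM Pool.Agent.Q161.ESG Pool.Agent.Q161.ESF Finset

section

variable {G I T V : Type} [Group G] [Finite G] [Fintype I] [Fintype T] [MulAction G I] [MulAction G T]
  [AddCommGroup V] [Finite V] [DistribMulAction G V]

/-- an iterate which is not trivial although its square is -/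
theorem exists_half (g : G) (P : G → Prop) (h1 : ¬ P g) (k : ℕ) (hk : P (g ^ 2 ^ k)) :
    ∃ σ : G, σ ∈ Subgroup.zpowers g ∧ ¬ P σ ∧ P (σ * σ) := by
  classical
  have hex : ∃ k, P (g ^ 2 ^ k) := ⟨k, hk⟩
  have hs := Nat.find_spec hex
  have hpos : Nat.find hex ≠ 0 := by
    intro h0
    rw [h0, pow_zero, pow_one] at hs
    exact h1 hs
  obtain ⟨m, hm⟩ := Nat.exists_eq_succ_of_ne_zero hpos
  have hlt : ¬ P (g ^ 2 ^ m) := Nat.find_min hex (by omega)
  refine ⟨g ^ 2 ^ m, ⟨(2 ^ m : ℕ), zpow_natCast g (2 ^ m)⟩, hlt, ?_⟩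
  rw [← pow_add, ← two_mul, ← pow_succ']
  rw [hm] at hs
  exact hs

theorem eqv_smul (p : I → T) (N : Subgroup G) (hN : N.Normal)
    (hp : ∀ (g : G) (i : I), p (g • i) = g • p i) {t t' : T} (h : Eqv' p N t t') (g : G) :
    Eqv' p N (g • t) (g • t') := by
  have key : ∀ (t : T) (n : G), Tr p n (g • t) ↔ Tr p (g⁻¹ * n * g) t := by
    intro t n
    constructor
    · intro h1 i hi
      have h2 := h1 (g • i) (by rw [hp, hi])
      rw [mul_smul, mul_smul, h2, inv_smul_smul]
    · intro h1 i hi
      have h2 := h1 (g⁻¹ • i) (by rw [hp, hi, inv_smul_smul])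
      rw [mul_smul, mul_smul, smul_inv_smul] at h2
      exact smul_left_cancel _ h2
  intro n hn
  rw [key, key]
  exact h _ (by
    have := hN.conj_mem n hn g⁻¹
    rwa [inv_inv] at this)

theorem z3' : ∀ x y z : ZMod 2, x + y + z = 0 → ¬ (x = 0 ∧ y = 0 ∧ z = 0) →
    (x = 0 ∧ y = 1 ∧ z = 1) ∨ (x = 1 ∧ y = 0 ∧ z = 1) ∨ (x = 1 ∧ y = 1 ∧ z = 0) := by decide

/-- **SEMA** -/
theorem sema : S_SEMA := by
  intro G I T V _ _ _ _ _ _ _ _ _ p cd N hp h3' hnor hNT htr hsep hinj him heqv
  classical
  have h3 : ∀ t, Nat.card {i // p i = t} = 3 := by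
    intro t
    rw [← h3' t, Nat.card_eq_fintype_card, Fintype.card_subtype]
  have h2 : ∀ v : V, v + v = 0 := by
    intro v
    apply hinj
    rw [map_add, map_zero]
    funext i
    exact CharTwo.add_self_eq_zero _
  have hcd : ∀ (g : G) (v : V) (i : I), cd (g • v) i = cd v (g⁻¹ • i) := by
    intro g v i
    have h := heqv g v (g⁻¹ • i)
    rwa [smul_inv_smul] at h
  -- the Sylow subgroup
  have : Fact (Nat.Prime 2) := ⟨Nat.prime_two⟩
  obtain ⟨P⟩ : Nonempty (Sylow 2 (G ⧸ N)) := inferInstance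
  let H : Subgroup G := (P : Subgroup (G ⧸ N)).comap (QuotientGroup.mk' N)
  have hHi : Odd H.index := by
    have h1 : H.index = (P : Subgroup (G ⧸ N)).index :=
      Subgroup.index_comap_of_surjective _ (QuotientGroup.mk'_surjective N)
    rw [h1]
    have h4 := P.not_dvd_index
    rw [← Nat.not_even_iff_odd, even_iff_two_dvd]
    exact h4
  have hHN : ∀ g ∈ N, g ∈ H := by
    intro g hg
    have h1 : (QuotientGroup.mk' N) g = 1 := (QuotientGroup.eq_one_iff g).2 hg
    show (QuotientGroup.mk' N) g ∈ (P : Subgroup (G ⧸ N))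
    rw [h1]
    exact Subgroup.one_mem _
  have hHp : ∀ g ∈ H, ∃ k : ℕ, g ^ 2 ^ k ∈ N := by
    intro g hg
    obtain ⟨k, hk⟩ := P.2 ⟨(QuotientGroup.mk' N) g, hg⟩
    refine ⟨k, ?_⟩
    rw [← QuotientGroup.eq_one_iff]
    exact congrArg Subtype.val hk
  -- different elements of an orbit of `H` are not equivalent
  have hneq : ∀ g ∈ H, ∀ t : T, g • t ≠ t → ¬ Eqv' p N (g • t) t := by
    intro g hg t hgt heq
    have hC : ∀ m : ℕ, ∀ u, Eqv' p N u t → Eqv' p N (g ^ m • u) t := by
      intro m
      induction m with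
      | zero => intro u hu; rwa [pow_zero, one_smul]
      | succ m ih =>
        intro u hu
        rw [pow_succ, mul_smul]
        refine ih _ ?_
        intro n hn
        rw [eqv_smul p N hnor hp hu g n hn, heq n hn]
    obtain ⟨k, hk⟩ := hHp g hg
    obtain ⟨σ, hσ1, hσ2, hσ3⟩ := exists_half g (fun σ => ∀ u, Eqv' p N u t → σ • u = u)
      (fun h => hgt (h t fun _ _ => Iff.rfl)) k (fun u _ => hNT _ hk u)
    push Not at hσ2
    obtain ⟨u, hu, hσu⟩ := hσ2
    have hσu2 : σ • σ • u = u := by
      rw [← mul_smul]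
      exact hσ3 u hu
    obtain ⟨n, hn, hn1, i, hi, hni⟩ := hsep σ u hσu hσu2
    have hσm : ∃ m : ℕ, g ^ m = σ := by
      have := (mem_powers_iff_mem_zpowers).2 hσ1
      obtain ⟨m, hm⟩ := this
      exact ⟨m, hm⟩
    obtain ⟨m, rfl⟩ := hσm
    have h4 : Eqv' p N (g ^ m • u) u := by
      intro n' hn'
      rw [hC m u hu n' hn', hu n' hn']
    exact hni ((h4 n hn).1 hn1 i hi)
  -- restrictions
  have hres : ∀ (q : T → Prop) (v : V), ∃ u : V, ∀ i, cd u i = if q (p i) then cd v i else 0 := by
    intro q v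
    obtain ⟨u, hu⟩ := (him (fun i => if q (p i) then cd v i else 0)).2 (by
      intro t
      by_cases hq : q t
      · rw [← (him (cd v)).1 ⟨v, rfl⟩ t]
        refine Finset.sum_congr rfl (fun i hi => ?_)
        rw [Finset.mem_filter] at hi
        rw [hi.2, if_pos hq]
      · refine Finset.sum_eq_zero (fun i hi => ?_)
        rw [Finset.mem_filter] at hi
        rw [hi.2, if_neg hq])
    exact ⟨u, fun i => by rw [hu]⟩
  refine Pool.Agent.Q121.ESG.msk G V h2 H hHi ?_
  let U : T → AddSubgroup V := fun t =>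
    { carrier := {v | ∀ i, (¬ ∃ g ∈ H, g • t = p i) → cd v i = 0}
      zero_mem' := by
        intro i _
        rw [map_zero]
        rfl
      add_mem' := by
        intro a b ha hb i hi
        rw [map_add]
        show cd a i + cd b i = 0
        rw [ha i hi, hb i hi, add_zero]
      neg_mem' := by
        intro a ha i hi
        rw [map_neg]
        show - cd a i = 0
        rw [ha i hi, neg_zero] }
  have hU : ∀ t, GSt H (U t) := by
    rintro t ⟨g, hg⟩ v hv i hi
    show cd (g • v) i = 0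
    rw [hcd]
    apply hv
    rintro ⟨k, hk, hki⟩
    apply hi
    refine ⟨g * k, H.mul_mem hg hk, ?_⟩
    rw [mul_smul, hki, hp, smul_inv_smul]
  have hGN : ∀ (W : AddSubgroup V), GSt H W → ∀ g ∈ H, ∀ v ∈ W, g • v ∈ W := fun W hW g hg v hv =>
    hW ⟨g, hg⟩ v hv
  -- three points: a nonzero vector on one block
  have hz : ∀ (v : V) (t : T), (∃ i, p i = t ∧ cd v i ≠ 0) →
      ∃ i, p i = t ∧ cd v i = 0 ∧ ∀ j, p j = t → j ≠ i → cd v j = 1 := by
    intro v t ⟨i0, hi0, hi0'⟩
    have hs := (him (cd v)).1 ⟨v, rfl⟩ t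
    obtain ⟨a, b, c, hab, hac, hbc, hT⟩ := Finset.card_eq_three.1 (h3' t)
    rw [hT, Finset.sum_insert (by simp [hab, hac]), Finset.sum_pair hbc, ← add_assoc] at hs
    have hall : ∀ j, p j = t ↔ j = a ∨ j = b ∨ j = c := by
      intro j
      have h5 : j ∈ univ.filter (fun i => p i = t) ↔ j ∈ ({a, b, c} : Finset I) := by rw [hT]
      simpa using h5
    have h6 := z3' _ _ _ hs (by
      rintro ⟨h4, h5, h6⟩
      rcases (hall i0).1 hi0 with rfl | rfl | rfl
      · exact hi0' h4
      · exact hi0' h5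
      · exact hi0' h6)
    rcases h6 with ⟨h4, h5, h6⟩ | ⟨h4, h5, h6⟩ | ⟨h4, h5, h6⟩
    · refine ⟨a, (hall a).2 (Or.inl rfl), h4, fun j hj hja => ?_⟩
      rcases (hall j).1 hj with rfl | rfl | rfl
      · exact absurd rfl hja
      · exact h5
      · exact h6
    · refine ⟨b, (hall b).2 (Or.inr (Or.inl rfl)), h5, fun j hj hja => ?_⟩
      rcases (hall j).1 hj with rfl | rfl | rfl
      · exact h4
      · exact absurd rfl hja
      · exact h6
    · refine ⟨c, (hall c).2 (Or.inr (Or.inr rfl)), h6, fun j hj hja => ?_⟩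
      rcases (hall j).1 hj with rfl | rfl | rfl
      · exact h4
      · exact h5
      · exact absurd rfl hja
  -- a stable subgroup of `U t` which is not zero is everything
  have hsimple : ∀ t, ∀ W : AddSubgroup V, W ≤ U t → GSt H W → W = ⊥ ∨ W = U t := by
    intro t W hWU hW
    by_cases hb : W = ⊥
    · exact Or.inl hb
    right
    -- the support
    let sp : V → Finset T := fun v => univ.filter (fun s => ∃ i, p i = s ∧ cd v i ≠ 0)
    have hsp : ∀ v s, s ∈ sp v ↔ ∃ i, p i = s ∧ cd v i ≠ 0 := by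
      intro v s
      simp [sp]
    obtain ⟨v0, hv0, hv00⟩ := (AddSubgroup.bot_or_exists_ne_zero W).resolve_left hb
    let Ws : Finset V := (Set.toFinite {v : V | v ∈ W ∧ v ≠ 0}).toFinset
    have hWs : ∀ v, v ∈ Ws ↔ v ∈ W ∧ v ≠ 0 := by
      intro v
      simp [Ws]
    obtain ⟨w, hw, hmin⟩ := Ws.exists_min_image (fun v => (sp v).card) ⟨v0, (hWs v0).2 ⟨hv0, hv00⟩⟩
    rw [hWs] at hw
    obtain ⟨hwW, hw0⟩ := hw
    have hspne : ∀ v : V, v ≠ 0 → (sp v).Nonempty := by
      intro v hv
      by_contra hcon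
      rw [Finset.not_nonempty_iff_eq_empty] at hcon
      apply hv
      apply hinj
      rw [map_zero]
      funext i
      by_contra hi
      have : p i ∈ sp v := (hsp v _).2 ⟨i, rfl, hi⟩
      rw [hcon] at this
      exact absurd this (Finset.notMem_empty _)
    obtain ⟨s, hs⟩ := hspne w hw0
    have hone : sp w = {s} := by
      rw [Finset.eq_singleton_iff_unique_mem]
      refine ⟨hs, fun s' hs' => ?_⟩
      by_contra hss
      -- both in the orbit
      obtain ⟨i1, hi1, hi1'⟩ := (hsp w s).1 hs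
      obtain ⟨i2, hi2, hi2'⟩ := (hsp w s').1 hs'
      have o1 : ∃ g ∈ H, g • t = s := by
        by_contra hcon
        exact hi1' (hWU hwW i1 (by rw [hi1]; exact hcon))
      have o2 : ∃ g ∈ H, g • t = s' := by
        by_contra hcon
        exact hi2' (hWU hwW i2 (by rw [hi2]; exact hcon))
      obtain ⟨g1, hg1, hg1'⟩ := o1
      obtain ⟨g2, hg2, hg2'⟩ := o2
      have hnE : ¬ Eqv' p N s s' := by
        have h5 := hneq (g1 * g2⁻¹) (H.mul_mem hg1 (H.inv_mem hg2)) s'
        have h6 : (g1 * g2⁻¹) • s' = s := by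
          rw [mul_smul, ← hg2', inv_smul_smul, hg1']
        rw [h6] at h5
        exact h5 (Ne.symm hss)
      obtain ⟨g, hg, hgtr, hgcy⟩ := separate p N hp hNT htr h3 s s' hnE
      have hgN : ∀ i, p (g⁻¹ • i) = p i := fun i => by rw [hp, hNT _ (N.inv_mem hg)]
      have hw' : w + g • w ∈ W := W.add_mem hwW (hGN W hW g (hHN g hg) w hwW)
      have hval : ∀ i, cd (w + g • w) i = cd w i + cd w (g⁻¹ • i) := by
        intro i
        rw [map_add, Pi.add_apply, hcd]
      have hnz : w + g • w ≠ 0 := by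
        intro h0
        obtain ⟨a, ha, ha0, ha1⟩ := hz w s ⟨i1, hi1, hi1'⟩
        have h5 := hval (g • a)
        rw [h0, map_zero, inv_smul_smul, ha0, add_zero] at h5
        have h6 := ha1 (g • a) (by rw [hp, ha, hNT g hg]) (hgcy a ha)
        rw [h6] at h5
        exact zero_ne_one h5
      have hlt : (sp (w + g • w)).card < (sp w).card := by
        apply Finset.card_lt_card
        refine ⟨fun r hr => ?_, fun hsub => ?_⟩
        · obtain ⟨i, hi, hi'⟩ := (hsp _ r).1 hr
          rw [hval] at hi'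
          by_cases h5 : cd w i = 0
          · rw [h5, zero_add] at hi'
            exact (hsp w r).2 ⟨g⁻¹ • i, by rw [hgN, hi], hi'⟩
          · exact (hsp w r).2 ⟨i, hi, h5⟩
        · obtain ⟨i, hi, hi'⟩ := (hsp _ s').1 (hsub hs')
          apply hi'
          have h5 : g⁻¹ • i = i := by
            rw [inv_smul_eq_iff, hgtr i hi]
          rw [hval, h5]
          exact CharTwo.add_self_eq_zero _
      exact absurd (hmin _ ((hWs _).2 ⟨hw', hnz⟩)) (not_le.2 hlt)
    -- all the elements supported on one block of the orbit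
    have hblock : ∀ (s' : T) (v : V), (∃ g ∈ H, g • t = s') → (∀ i, p i ≠ s' → cd v i = 0) → v ∈ W := by
      intro s' v ho hv
      by_cases hv0 : v = 0
      · rw [hv0]
        exact W.zero_mem
      have hex : ∃ i, p i = s' ∧ cd v i ≠ 0 := by
        by_contra hcon
        push Not at hcon
        apply hv0
        apply hinj
        rw [map_zero]
        funext i
        by_cases hi : p i = s'
        · exact hcon i hi
        · exact hv i hi
      obtain ⟨g2, hg2, hg2'⟩ := ho
      obtain ⟨i1, hi1, hi1'⟩ := (hsp w s).1 hs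
      have o1 : ∃ g ∈ H, g • t = s := by
        by_contra hcon
        exact hi1' (hWU hwW i1 (by rw [hi1]; exact hcon))
      obtain ⟨g1, hg1, hg1'⟩ := o1
      obtain ⟨a, ha, ha0, ha1⟩ := hz w s ⟨i1, hi1, hi1'⟩
      obtain ⟨b, hb, hb0, hb1⟩ := hz v s' hex
      have hk : (g2 * g1⁻¹) • s = s' := by
        rw [mul_smul, ← hg1', inv_smul_smul, hg2']
      obtain ⟨n, hn, hnb⟩ := htr ((g2 * g1⁻¹) • a) b (by rw [hp, ha, hk, hb])
      have hgH : n * (g2 * g1⁻¹) ∈ H := H.mul_mem (hHN n hn) (H.mul_mem hg2 (H.inv_mem hg1))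
      have hgb : (n * (g2 * g1⁻¹)) • a = b := by rw [mul_smul, hnb]
      have hgs : (n * (g2 * g1⁻¹)) • s = s' := by rw [mul_smul, hk, hNT n hn]
      have hvw : v = (n * (g2 * g1⁻¹)) • w := by
        apply hinj
        funext i
        rw [hcd]
        by_cases hi : p i = s'
        · have hpi : p ((n * (g2 * g1⁻¹))⁻¹ • i) = s := by
            rw [hp, hi, ← hgs, inv_smul_smul]
          by_cases hib : i = b
          · rw [hib, hb0, ← hgb, inv_smul_smul, ha0]
          · rw [hb1 i hi hib, ha1 _ hpi ?_]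
            intro h5
            apply hib
            rw [← hgb, ← h5, smul_inv_smul]
        · rw [hv i hi]
          symm
          by_contra h5
          have h6 : p ((n * (g2 * g1⁻¹))⁻¹ • i) ∈ sp w := (hsp w _).2 ⟨_, rfl, h5⟩
          rw [hone, Finset.mem_singleton, hp, inv_smul_eq_iff, hgs] at h6
          exact hi h6
      rw [hvw]
      exact hGN W hW _ hgH w hwW
    apply le_antisymm hWU
    intro v hv
    choose u hu using fun s' : T => hres (fun r => r = s') v
    have h6 : v = ∑ s' : T, u s' := by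
      apply hinj
      rw [map_sum]
      funext i
      rw [Finset.sum_apply, Finset.sum_congr rfl (fun s' _ => hu s' i), Finset.sum_ite_eq]
      simp
    rw [h6]
    refine AddSubgroup.sum_mem _ (fun s' _ => ?_)
    by_cases ho : ∃ g ∈ H, g • t = s'
    · refine hblock s' (u s') ho (fun i hi => ?_)
      rw [hu, if_neg hi]
    · have h7 : u s' = 0 := by
        apply hinj
        rw [map_zero]
        funext i
        rw [hu]
        split_ifs with h8
        · refine hv i ?_
          rw [h8]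
          exact ho
        · rfl
      rw [h7]
      exact W.zero_mem
  refine Pool.Agent.Q166.ESG.sumg H V T U h2 hU ?_ ?_
  · intro t W hWU hW
    rcases hsimple t W hWU hW with h | h
    · exact ⟨U t, le_rfl, hU t, by rw [h]; simp, by rw [h]; simp⟩
    · refine ⟨⊥, bot_le, ?_, by simp, by rw [h]; simp⟩
      intro g v hv
      rw [AddSubgroup.mem_bot] at hv
      rw [hv, smul_zero]
      exact AddSubgroup.zero_mem _
  · rw [eq_top_iff]
    intro v _
    choose u hu using fun s' : T => hres (fun r => r = s') v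
    have h6 : v = ∑ s' : T, u s' := by
      apply hinj
      rw [map_sum]
      funext i
      rw [Finset.sum_apply, Finset.sum_congr rfl (fun s' _ => hu s' i), Finset.sum_ite_eq]
      simp
    rw [h6]
    refine AddSubgroup.sum_mem _ (fun s' _ => ?_)
    refine (le_iSup U s') ?_
    intro i hi
    rw [hu]
    split_ifs with h8
    · exact absurd ⟨1, H.one_mem, by rw [one_smul, h8]⟩ hi
    · rfl

end

end Pool.Agent.Q123.ESF
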