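import Pool.Agent.Q161.ESF.Stm8
import Pool.Agent.Q121.ESG.SEMF
import Pool.Agent.Q166.ESG.SUMG

/-!
Project ESF (helper161), part 2, job SEMN: semisimplicity over all number fields.
-/

set_option autoImplicit false

namespace Pool.Agent.Q123.ESF

open Pool.Agent.Q161.ESM Pool.Agent.Q161.ESG Pool.Agent.Q161.ESF Pool.Agent.Q121.ESG Finset NumberField

/-- the action of the Galois group on the embeddings -/
abbrev cpAct (K L : Type) [Field K] [NumberField K] [Field L] [NumberField L] :
    MulAction (K ≃ₐ[ℚ] K) (L →+* K) where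
  smul g ι := cp g ι
  one_smul _ := rfl
  mul_smul _ _ _ := rfl

/-- **SEMN** -/
theorem semn (hA : S_SEMA) (hKCD : S_KCD) : S_SEMN := by
  intro C _ F L _ _ _ _ _ a b th hcub M _ _ hadm K _ _ _ hne hneM V _ _ _ cd hV
  classical
  have h2 : ∀ v : V, v + v = 0 := by
    intro v
    apply hV.inj
    rw [map_add, map_zero]
    funext c ι
    exact CharTwo.add_self_eq_zero _
  have hres : ∀ (p : (c : C) → (F c →+* K) → Prop) (v : V), ∃ u : V, ∀ c ι,
      cd u c ι = if p c (ι.comp (algebraMap (F c) (L c))) then cd v c ι else 0 := by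
    intro p v
    have key := (hV.im (fun c ι => if p c (ι.comp (algebraMap (F c) (L c))) then cd v c ι else 0)).2 (by
      intro c τ
      by_cases hp : p c τ
      · rw [← (hV.im (cd v)).1 ⟨v, rfl⟩ c τ]
        refine Finset.sum_congr rfl (fun ι hι => ?_)
        rw [Finset.mem_filter] at hι
        rw [hι.2, if_pos hp]
      · refine Finset.sum_eq_zero (fun ι hι => ?_)
        rw [Finset.mem_filter] at hι
        rw [hι.2, if_neg hp])
    obtain ⟨u, hu⟩ := key
    exact ⟨u, fun c ι => by rw [hu]⟩
  let U : C → AddSubgroup V := fun c =>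
    { carrier := {v | ∀ c', c' ≠ c → ∀ ι, cd v c' ι = 0}
      zero_mem' := by
        intro c' _ ι
        rw [map_zero]
        rfl
      add_mem' := by
        intro a b ha hb c' hc' ι
        rw [map_add]
        show cd a c' ι + cd b c' ι = 0
        rw [ha c' hc' ι, hb c' hc' ι, add_zero]
      neg_mem' := by
        intro a ha c' hc' ι
        rw [map_neg]
        show - cd a c' ι = 0
        rw [ha c' hc' ι, neg_zero] }
  have hcd : ∀ (g : K ≃ₐ[ℚ] K) (v : V) c ι, cd (g • v) c ι = cd v c (cp g⁻¹ ι) := by
    intro g v c ι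
    have h := hV.eqv g v c (cp g⁻¹ ι)
    have h4 : cp g (cp g⁻¹ ι) = ι := by
      ext x
      show g (g⁻¹ (ι x)) = ι x
      exact AlgEquiv.apply_symm_apply g _
    rw [h4] at h
    exact h
  have hU : ∀ c, GSt (K ≃ₐ[ℚ] K) (U c) := fun c g v hv c' hc' ι => by
    rw [hcd]
    exact hv c' hc' _
  refine Pool.Agent.Q166.ESG.sumg _ V C U h2 hU ?_ ?_
  · intro c
    refine semi_sub (U c) (hU c) ?_
    let _ := actOn (U c) (hU c)
    let _ := cpAct K (L c)
    let _ := cpAct K (F c)
    let cd' : U c →+ ((L c →+* K) → ZMod 2) :=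
      { toFun := fun v => cd v.1 c
        map_zero' := by
          show cd 0 c = 0
          rw [map_zero]
          rfl
        map_add' := by
          intro a b
          show cd (a.1 + b.1) c = cd a.1 c + cd b.1 c
          rw [map_add]
          rfl }
    have hinj : Function.Injective cd' := by
      intro v w hvw
      apply Subtype.ext
      apply hV.inj
      funext c' ι
      by_cases hc : c' = c
      · subst hc
        exact congrFun hvw ι
      · rw [v.2 c' hc ι, w.2 c' hc ι]
    obtain ⟨N, hN1, hN2, hN3, hN4⟩ := hKCD (F c) (a c) (b c) (M c) (hadm c) (L c) (th c) (hcub c) K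
      (hne c) (hneM c)
    refine hA (K ≃ₐ[ℚ] K) (L c →+* K) (F c →+* K) (U c) (fun ι => ι.comp (algebraMap (F c) (L c))) cd' N
      (fun _ _ => rfl) ?_ hN1 hN2 hN3 hN4 hinj ?_ ?_
    · intro τ
      rw [← (hcub c).deg, ← card_block (hne c) τ, Nat.card_eq_fintype_card, Fintype.card_subtype]
    · intro e
      constructor
      · rintro ⟨v, rfl⟩ τ
        exact (hV.im (cd v.1)).1 ⟨v.1, rfl⟩ c τ
      · intro he
        obtain ⟨v, hv⟩ := (hV.im (Function.update (fun _ _ => 0) c e)).2 (by
          intro c' τ
          by_cases hc : c' = c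
          · subst hc
            rw [Function.update_self]
            exact he τ
          · rw [Function.update_of_ne hc]
            exact Finset.sum_const_zero)
        refine ⟨⟨v, fun c' hc' ι => ?_⟩, ?_⟩
        · rw [hv, Function.update_of_ne hc']
        · show cd v c = e
          rw [hv, Function.update_self]
    · intro g v ι
      exact hV.eqv g v.1 c ι
  · rw [eq_top_iff]
    intro v _
    choose u hu using fun c : C => hres (fun c' _ => c' = c) v
    have h6 : v = ∑ c : C, u c := by
      apply hV.inj
      rw [map_sum]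
      funext c ι
      rw [Finset.sum_apply, Finset.sum_apply, Finset.sum_congr rfl (fun c' _ => hu c' c ι),
        Finset.sum_ite_eq]
      simp
    rw [h6]
    refine AddSubgroup.sum_mem _ (fun c _ => ?_)
    refine (le_iSup U c) ?_
    intro c' hc' ι
    rw [hu, if_neg hc']

end Pool.Agent.Q123.ESF
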